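import Pool.Agent.Helper97.SZ.Goals

/-!
# Packet SZ-MOSER (MP_126465_gt): Moser isotopy with support

The isotopy is the flow of a kernel vector field of the closed `2`-form `Θ + d γ` on `ℝ × E`.
-/

set_option autoImplicit false

open Set Filter Topology Metric
open scoped ContDiff

namespace Pool.Agent.Helper95.SZ

open Pool.Agent.Helper91.SY Pool.Agent.Helper97.SZ

theorem clm_smooth (G H : Type) [NormedAddCommGroup G] [NormedSpace ℝ G] [NormedAddCommGroup H]
    [NormedSpace ℝ H] {P : Type} [NormedAddCommGroup P] [NormedSpace ℝ P] (L : G →L[ℝ] H)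
    {f : P → G} (hf : ContDiff ℝ ∞ f) : ContDiff ℝ ∞ (fun x => L (f x)) := L.contDiff.comp hf

theorem clm_deriv (G H : Type) [NormedAddCommGroup G] [NormedSpace ℝ G] [NormedAddCommGroup H]
    [NormedSpace ℝ H] {P : Type} [NormedAddCommGroup P] [NormedSpace ℝ P] (L : G →L[ℝ] H)
    {f : P → G} {f' : P →L[ℝ] G} {x : P} (hf : HasFDerivAt f f' x) :
    HasFDerivAt (fun x => L (f x)) (L.comp f') x := L.hasFDerivAt.comp x hf

section
variable {E : Type} [NormedAddCommGroup E] [NormedSpace ℝ E]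

/-- the flow of a vector field in the kernel of a closed `2`-form preserves the form -/
theorem kernel_flow (B : E → E →L[ℝ] E →L[ℝ] ℝ) (X : E → E) (Φ : ℝ → E → E)
    (hBs : ContDiff ℝ ∞ B) (halt : ∀ x u, B x u u = 0)
    (hcl : ∀ x u v w, fderiv ℝ B x u v w - fderiv ℝ B x v u w + fderiv ℝ B x w u v = 0)
    (hX : ContDiff ℝ ∞ X) (hK : ∀ x v, B x (X x) v = 0) (hF : Flow X Φ) :
    ∀ t, Pull (Φ t) B B := by
  have hinf : (∞ : WithTop ℕ∞) ≠ 0 := by simp
  have h2inf : (2 : WithTop ℕ∞) ≤ ∞ := WithTop.coe_le_coe.2 (le_top : (2 : ℕ∞) ≤ ⊤)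
  have hBd : Differentiable ℝ B := hBs.differentiable hinf
  have hXd : Differentiable ℝ X := hX.differentiable hinf
  set G : ℝ × E → E := fun p => Φ p.1 p.2 with hG
  have hGs : ContDiff ℝ ∞ G := hF.smooth
  have hGd : Differentiable ℝ G := hGs.differentiable hinf
  have hG1 : ContDiff ℝ ∞ (fderiv ℝ G) := hGs.fderiv_right (m := ∞) (by simp)
  have hG1d : Differentiable ℝ (fderiv ℝ G) := hG1.differentiable hinf
  have hanti : ∀ y a b, B y a b = -B y b a := by
    intro y a b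
    have h1 := halt y (a + b)
    have h2 := halt y a
    have h3 := halt y b
    simp only [map_add, add_apply] at h1
    linarith
  have hin1 : ∀ (t : ℝ) (x : E), HasFDerivAt (fun y : E => ((t, y) : ℝ × E))
      (ContinuousLinearMap.inr ℝ ℝ E) x := by
    intro t x
    exact hasFDerivAt_prodMk_right t x
  have hin2 : ∀ (t : ℝ) (x : E), HasDerivAt (fun s : ℝ => ((s, x) : ℝ × E)) ((1 : ℝ), (0 : E)) t := by
    intro t x
    exact (hasDerivAt_id t).prodMk (hasDerivAt_const t x)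
  have hspace : ∀ (t : ℝ) (x u : E), fderiv ℝ (Φ t) x u = fderiv ℝ G (t, x) (0, u) := by
    intro t x u
    have h1 : HasFDerivAt (Φ t) ((fderiv ℝ G (t, x)).comp (ContinuousLinearMap.inr ℝ ℝ E)) x :=
      (hGd (t, x)).hasFDerivAt.comp x (hin1 t x)
    rw [h1.fderiv]
    simp
  have htime : ∀ (t : ℝ) (x : E), X (Φ t x) = fderiv ℝ G (t, x) (1, 0) := by
    intro t x
    have h1 : HasDerivAt (G ∘ fun s : ℝ => ((s, x) : ℝ × E)) (fderiv ℝ G (t, x) (1, 0)) t :=
      HasFDerivAt.comp_hasDerivAt t (hGd (t, x)).hasFDerivAt (hin2 t x)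
    exact (hF.deriv t x).unique h1
  have hsymm : ∀ (t : ℝ) (x : E) (a b : ℝ × E),
      fderiv ℝ (fderiv ℝ G) (t, x) a b = fderiv ℝ (fderiv ℝ G) (t, x) b a := by
    intro t x a b
    have h1 : IsSymmSndFDerivAt ℝ G (t, x) :=
      (hGs.contDiffAt).isSymmSndFDerivAt (by simp; exact h2inf)
    exact h1.eq a b
  have hU : ∀ (t : ℝ) (x u : E), HasDerivAt (fun s => fderiv ℝ (Φ s) x u)
      (fderiv ℝ X (Φ t x) (fderiv ℝ (Φ t) x u)) t := by
    intro t x u
    have h1 : HasDerivAt (fun s => fderiv ℝ G (s, x)) (fderiv ℝ (fderiv ℝ G) (t, x) (1, 0)) t :=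
      (hG1d (t, x)).hasFDerivAt.comp_hasDerivAt t (hin2 t x)
    have h2 : HasDerivAt (fun s => fderiv ℝ G (s, x) (0, u))
        (fderiv ℝ (fderiv ℝ G) (t, x) (1, 0) (0, u)) t := by
      have h3 := h1.clm_apply (hasDerivAt_const t ((0 : ℝ), u))
      simpa using h3
    have h4 : (fun s => fderiv ℝ (Φ s) x u) = fun s => fderiv ℝ G (s, x) (0, u) := by
      funext s
      exact hspace s x u
    rw [h4]
    have h5 : fderiv ℝ (fderiv ℝ G) (t, x) (1, 0) (0, u)
        = fderiv ℝ X (Φ t x) (fderiv ℝ (Φ t) x u) := by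
      rw [hsymm]
      have h6 : HasFDerivAt (fun y => fderiv ℝ G (t, y))
          ((fderiv ℝ (fderiv ℝ G) (t, x)).comp (ContinuousLinearMap.inr ℝ ℝ E)) x :=
        (hG1d (t, x)).hasFDerivAt.comp x (hin1 t x)
      have h7 := h6.clm_apply (hasFDerivAt_const ((1 : ℝ), (0 : E)) x)
      have h8 : HasFDerivAt (Φ t) (fderiv ℝ (Φ t) x) x := by
        have h9 : HasFDerivAt (Φ t) ((fderiv ℝ G (t, x)).comp (ContinuousLinearMap.inr ℝ ℝ E)) x :=
          (hGd (t, x)).hasFDerivAt.comp x (hin1 t x)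
        exact h9.differentiableAt.hasFDerivAt
      have h10 : HasFDerivAt (fun y => X (Φ t y)) ((fderiv ℝ X (Φ t x)).comp (fderiv ℝ (Φ t) x)) x :=
        (hXd (Φ t x)).hasFDerivAt.comp x h8
      have h11 : (fun y => X (Φ t y)) = fun y => fderiv ℝ G (t, y) (1, 0) := by
        funext y
        exact htime t y
      rw [h11] at h10
      have h12 := congrArg (fun L : E →L[ℝ] E => L u) (h7.unique h10)
      simpa using h12
    rw [← h5]
    exact h2
  have hHam : ∀ y u v, fderiv ℝ B y u (X y) v + B y (fderiv ℝ X y u) v = 0 := by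
    intro y u v
    have h1 : (fun z => B z (X z)) = fun _ => 0 := by
      funext z
      ext w
      exact hK z w
    have h2 := (hBd y).hasFDerivAt.clm_apply (hXd y).hasFDerivAt
    rw [h1] at h2
    have h3 := congrArg (fun L : E →L[ℝ] E →L[ℝ] ℝ => L u v)
      (h2.unique (hasFDerivAt_const (0 : E →L[ℝ] ℝ) y))
    simp only [add_apply, ContinuousLinearMap.comp_apply,
      ContinuousLinearMap.flip_apply, zero_apply] at h3
    linarith
  intro t x u v
  have hW : ∀ s, HasDerivAt (fun s => B (Φ s x) (fderiv ℝ (Φ s) x u) (fderiv ℝ (Φ s) x v)) 0 s := by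
    intro s
    have h1 : HasDerivAt (B ∘ fun s => Φ s x) (fderiv ℝ B (Φ s x) (X (Φ s x))) s :=
      HasFDerivAt.comp_hasDerivAt (l := B) (f := fun s => Φ s x) s (hBd (Φ s x)).hasFDerivAt
        (hF.deriv s x)
    have h2 := (h1.clm_apply (hU s x u)).clm_apply (hU s x v)
    have h3 := hHam (Φ s x) (fderiv ℝ (Φ s) x u) (fderiv ℝ (Φ s) x v)
    have h4 := hHam (Φ s x) (fderiv ℝ (Φ s) x v) (fderiv ℝ (Φ s) x u)
    have h5 := hcl (Φ s x) (X (Φ s x)) (fderiv ℝ (Φ s) x u) (fderiv ℝ (Φ s) x v)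
    have h7 := hanti (Φ s x) (fderiv ℝ (Φ s) x u)
      (fderiv ℝ X (Φ s x) (fderiv ℝ (Φ s) x v))
    refine h2.congr_deriv ?_
    simp only [add_apply, Function.comp_apply]
    linarith
  have hc := is_const_of_deriv_eq_zero (fun s => (hW s).differentiableAt)
    (fun s => (hW s).deriv) t 0
  have h0 : Φ 0 = id := by
    funext y
    exact hF.zero y
  have h1 : fderiv ℝ (Φ 0) x = ContinuousLinearMap.id ℝ E := by
    rw [h0]
    exact fderiv_id
  simp only [h1, hF.zero, ContinuousLinearMap.id_apply] at hc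
  exact hc

/-! ### exterior derivatives of `1`-forms -/

theorem dd_apply (a : E → E →L[ℝ] ℝ) (x u v : E) :
    dd a x u v = fderiv ℝ a x u v - fderiv ℝ a x v u := rfl

theorem exists_flip : ∃ L : (E →L[ℝ] E →L[ℝ] ℝ) →L[ℝ] (E →L[ℝ] E →L[ℝ] ℝ), ∀ A, L A = A.flip :=
  ⟨((ContinuousLinearMap.flipₗᵢ ℝ E E ℝ).toContinuousLinearEquiv :
    (E →L[ℝ] E →L[ℝ] ℝ) →L[ℝ] (E →L[ℝ] E →L[ℝ] ℝ)), fun _ => rfl⟩

theorem dd_smooth {a : E → E →L[ℝ] ℝ} (ha : ContDiff ℝ ∞ a) : ContDiff ℝ ∞ (dd a) := by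
  have h1 : ContDiff ℝ ∞ (fderiv ℝ a) := ha.fderiv_right (m := ∞) (by simp)
  obtain ⟨L, hL⟩ := exists_flip (E := E)
  have e : dd a = fun x => fderiv ℝ a x - L (fderiv ℝ a x) := by
    funext x
    rw [hL]
    rfl
  rw [e]
  exact h1.sub (clm_smooth (E →L[ℝ] E →L[ℝ] ℝ) (E →L[ℝ] E →L[ℝ] ℝ) L h1)

theorem dd_alt (a : E → E →L[ℝ] ℝ) (x u : E) : dd a x u u = 0 := by
  rw [dd_apply, sub_self]

theorem fderiv_ev {F P : Type} [NormedAddCommGroup F] [NormedSpace ℝ F] [NormedAddCommGroup P]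
    [NormedSpace ℝ P] {Ψ : P → F →L[ℝ] F →L[ℝ] ℝ} (h : Differentiable ℝ Ψ) (x u : P) (v w : F) :
    fderiv ℝ Ψ x u v w = fderiv ℝ (fun y => Ψ y v w) x u := by
  have h1 : HasFDerivAt Ψ (fderiv ℝ Ψ x) x := (h x).hasFDerivAt
  have h2 := h1.clm_apply (hasFDerivAt_const v x)
  have h3 := h2.clm_apply (hasFDerivAt_const w x)
  rw [h3.fderiv]
  simp

theorem diff_ev {F P : Type} [NormedAddCommGroup F] [NormedSpace ℝ F] [NormedAddCommGroup P]
    [NormedSpace ℝ P] {Ψ : P → F →L[ℝ] F →L[ℝ] ℝ} (h : Differentiable ℝ Ψ) (v w : F) :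
    Differentiable ℝ (fun y => Ψ y v w) := fun x =>
  (((h x).hasFDerivAt.clm_apply (hasFDerivAt_const v x)).clm_apply
    (hasFDerivAt_const w x)).differentiableAt

theorem fderiv_dd {a : E → E →L[ℝ] ℝ} (ha : ContDiff ℝ ∞ a) (x u v w : E) :
    fderiv ℝ (dd a) x u v w = fderiv ℝ (fderiv ℝ a) x u v w - fderiv ℝ (fderiv ℝ a) x u w v := by
  have h1 : Differentiable ℝ (fderiv ℝ a) :=
    (ha.fderiv_right (m := ∞) (by simp)).differentiable (by simp)
  have h2 : Differentiable ℝ (dd a) := (dd_smooth ha).differentiable (by simp)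
  rw [fderiv_ev h2, fderiv_ev h1, fderiv_ev h1]
  have h3 : HasFDerivAt (fun y => fderiv ℝ a y v w - fderiv ℝ a y w v)
      (fderiv ℝ (fun y => fderiv ℝ a y v w) x - fderiv ℝ (fun y => fderiv ℝ a y w v) x) x :=
    (diff_ev h1 v w x).hasFDerivAt.sub (diff_ev h1 w v x).hasFDerivAt
  have h4 : (fun y => dd a y v w) = fun y => fderiv ℝ a y v w - fderiv ℝ a y w v := rfl
  rw [h4, h3.fderiv]
  rfl

theorem dd_closed {a : E → E →L[ℝ] ℝ} (ha : ContDiff ℝ ∞ a) (x u v w : E) :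
    fderiv ℝ (dd a) x u v w - fderiv ℝ (dd a) x v u w + fderiv ℝ (dd a) x w u v = 0 := by
  have h2inf : (2 : WithTop ℕ∞) ≤ ∞ := WithTop.coe_le_coe.2 (le_top : (2 : ℕ∞) ≤ ⊤)
  have hs : ∀ b c, fderiv ℝ (fderiv ℝ a) x b c = fderiv ℝ (fderiv ℝ a) x c b := by
    intro b c
    have h1 : IsSymmSndFDerivAt ℝ a x := (ha.contDiffAt).isSymmSndFDerivAt (by simp; exact h2inf)
    exact h1.eq b c
  rw [fderiv_dd ha, fderiv_dd ha, fderiv_dd ha, hs u v, hs u w, hs v w]
  ring

end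

section
variable {E F : Type} [NormedAddCommGroup E] [NormedSpace ℝ E] [NormedAddCommGroup F]
  [NormedSpace ℝ F]

/-- pullback of bilinear forms by a linear map -/
noncomputable def res (j : E →L[ℝ] F) : (F →L[ℝ] F →L[ℝ] ℝ) →L[ℝ] (E →L[ℝ] E →L[ℝ] ℝ) :=
  (ContinuousLinearMap.compL ℝ E (F →L[ℝ] ℝ) (E →L[ℝ] ℝ)
    ((ContinuousLinearMap.compL ℝ E F ℝ).flip j)).comp
    ((ContinuousLinearMap.compL ℝ E F (F →L[ℝ] ℝ)).flip j)

theorem res_apply (j : E →L[ℝ] F) (A : F →L[ℝ] F →L[ℝ] ℝ) (u v : E) :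
    res j A u v = A (j u) (j v) := rfl

end

section
variable {E : Type} [NormedAddCommGroup E] [NormedSpace ℝ E] [FiniteDimensional ℝ E]

/-- nondegenerate forms are invertible -/
theorem inverse_smooth {P : Type} [NormedAddCommGroup P] [NormedSpace ℝ P]
    (A : P → E →L[ℝ] E →L[ℝ] ℝ) (hA : ContDiff ℝ ∞ A) (hn : ∀ p u, (∀ v, A p u v = 0) → u = 0) :
    ContDiff ℝ ∞ (fun p => (A p).inverse) ∧ ∀ p (l : E →L[ℝ] ℝ), A p ((A p).inverse l) = l := by
  have : CompleteSpace E := FiniteDimensional.complete ℝ E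
  have hfr : Module.finrank ℝ E = Module.finrank ℝ (E →L[ℝ] ℝ) := by
    rw [← (LinearMap.toContinuousLinearMap (𝕜 := ℝ) (E := E) (F' := ℝ)).finrank_eq]
    exact (Subspace.dual_finrank_eq (K := ℝ) (V := E)).symm
  have heq : ∀ p, ∃ e : E ≃L[ℝ] (E →L[ℝ] ℝ), (e : E →L[ℝ] (E →L[ℝ] ℝ)) = A p := by
    intro p
    have hinj : Function.Injective ((A p : E →L[ℝ] (E →L[ℝ] ℝ)) : E →ₗ[ℝ] (E →L[ℝ] ℝ)) := by
      rw [← LinearMap.ker_eq_bot, LinearMap.ker_eq_bot']
      intro u hu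
      apply hn p u
      intro v
      have : A p u = 0 := hu
      rw [this]
      rfl
    refine ⟨(LinearEquiv.ofInjectiveOfFinrankEq _ hinj hfr).toContinuousLinearEquiv, ?_⟩
    ext u v
    rfl
  refine ⟨?_, ?_⟩
  · rw [contDiff_iff_contDiffAt]
    intro p
    obtain ⟨e, he⟩ := heq p
    have h1 : ContDiffAt ℝ ∞ (ContinuousLinearMap.inverse : (E →L[ℝ] (E →L[ℝ] ℝ)) → _) (A p) := by
      rw [← he]
      exact contDiffAt_map_inverse e
    exact h1.comp p hA.contDiffAt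
  · intro p l
    obtain ⟨e, he⟩ := heq p
    rw [← he, ContinuousLinearMap.inverse_equiv]
    simp

theorem lip_of_const' {X : E → E} {R : ℝ} {e : E}
    (hX : ContDiff ℝ ∞ X) (hR : ∀ x, R ≤ ‖x‖ → X x = e) :
    ∃ K : NNReal, LipschitzWith K X := by
  have hd : Differentiable ℝ X := hX.differentiable (by simp)
  have hc : Continuous (fderiv ℝ X) := hX.continuous_fderiv (by simp)
  obtain ⟨C, hC⟩ := (isCompact_closedBall (0 : E) R).exists_bound_of_continuousOn
    (f := fderiv ℝ X) hc.continuousOn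
  refine ⟨Real.toNNReal (max C 0), lipschitzWith_of_nnnorm_fderiv_le hd fun x => ?_⟩
  rw [← NNReal.coe_le_coe, coe_nnnorm, Real.coe_toNNReal _ (le_max_right _ _)]
  by_cases hx : ‖x‖ ≤ R
  · exact (hC x (by simpa using hx)).trans (le_max_left _ _)
  · push Not at hx
    have h1 : X =ᶠ[𝓝 x] fun _ => e := by
      have h2 : {y : E | R < ‖y‖} ∈ 𝓝 x :=
        (isOpen_lt continuous_const continuous_norm).mem_nhds hx
      filter_upwards [h2] with y hy using hR y hy.le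
    rw [h1.fderiv_eq, fderiv_fun_const]
    simp

end

theorem moser (hGE : StmtGE) (hSM : StmtSM) (hGI : StmtGI) (hIV : StmtIV) : StmtMOSER := by
  intro E _ _ _ Θ γ K hΘ halt hcl hγ hK hγK hnd
  -- the time-dependent `1`-form
  obtain ⟨g, hg⟩ : ∃ g : ℝ × E → E →L[ℝ] ℝ,
      g = fun p => γ (Real.smoothTransition p.1) p.2 := ⟨_, rfl⟩
  have hgs : ContDiff ℝ ∞ g := by
    have h1 : ContDiff ℝ ∞ (fun p : ℝ × E => ((Real.smoothTransition p.1, p.2) : ℝ × E)) :=
      (Real.smoothTransition.contDiff.comp contDiff_fst).prodMk contDiff_snd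
    rw [hg]
    exact hγ.comp h1
  have hgd : Differentiable ℝ g := hgs.differentiable (by simp)
  obtain ⟨M, hM⟩ : ∃ M : (E →L[ℝ] ℝ) →L[ℝ] (ℝ × E →L[ℝ] ℝ),
      ∀ l w, M l w = l w.2 :=
    ⟨(ContinuousLinearMap.compL ℝ (ℝ × E) E ℝ).flip (ContinuousLinearMap.snd ℝ ℝ E),
      fun l w => rfl⟩
  obtain ⟨a, ha⟩ : ∃ a : ℝ × E → ℝ × E →L[ℝ] ℝ, a = fun p => M (g p) := ⟨_, rfl⟩
  have has : ContDiff ℝ ∞ a := by
    rw [ha]
    exact M.contDiff.comp hgs
  have hda : ∀ p u v, fderiv ℝ a p u v = fderiv ℝ g p u v.2 := by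
    intro p u v
    have h1 : HasFDerivAt a (M.comp (fderiv ℝ g p)) p := by
      rw [ha]
      exact M.hasFDerivAt.comp p (hgd p).hasFDerivAt
    rw [h1.fderiv]
    exact hM _ _
  -- the form on `ℝ × E`
  obtain ⟨Ω, hΩ⟩ : ∃ Ω : ℝ × E → ℝ × E →L[ℝ] ℝ × E →L[ℝ] ℝ,
      Ω = fun p => res (ContinuousLinearMap.snd ℝ ℝ E) (Θ p.2) + dd a p := ⟨_, rfl⟩
  have hΩe : ∀ p u v, Ω p u v = Θ p.2 u.2 v.2 + (fderiv ℝ g p u v.2 - fderiv ℝ g p v u.2) := by
    intro p u v
    rw [hΩ]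
    change Θ p.2 u.2 v.2 + dd a p u v = _
    rw [dd_apply, hda, hda]
  have hΘs : ContDiff ℝ ∞ (fun p : ℝ × E => res (ContinuousLinearMap.snd ℝ ℝ E) (Θ p.2)) := by
    have e0 : ContDiff ℝ ∞ (fun p : ℝ × E => Θ p.2) := hΘ.comp contDiff_snd
    exact clm_smooth (E →L[ℝ] E →L[ℝ] ℝ) (ℝ × E →L[ℝ] ℝ × E →L[ℝ] ℝ)
      (res (ContinuousLinearMap.snd ℝ ℝ E)) e0
  have hdds : ContDiff ℝ ∞ (dd a) := dd_smooth has
  have hΩs : ContDiff ℝ ∞ Ω := by
    rw [hΩ]
    exact hΘs.add hdds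
  have hΩalt : ∀ p u, Ω p u u = 0 := by
    intro p u
    rw [hΩe, halt]
    ring
  have hΩcl : ∀ p u v w, fderiv ℝ Ω p u v w - fderiv ℝ Ω p v u w + fderiv ℝ Ω p w u v = 0 := by
    intro p u v w
    have h1 : ∀ b c d, fderiv ℝ Ω p b c d =
        fderiv ℝ Θ p.2 b.2 c.2 d.2 + fderiv ℝ (dd a) p b c d := by
      intro b c d
      have d1 : Differentiable ℝ Ω := hΩs.differentiable (by simp)
      have d2 : Differentiable ℝ Θ := hΘ.differentiable (by simp)
      have d3 : Differentiable ℝ (dd a) := hdds.differentiable (by simp)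
      rw [fderiv_ev d1, fderiv_ev d2, fderiv_ev d3]
      have e1 : HasFDerivAt (fun q : ℝ × E => Θ q.2 c.2 d.2)
          ((fderiv ℝ (fun y => Θ y c.2 d.2) p.2).comp (ContinuousLinearMap.snd ℝ ℝ E)) p :=
        (diff_ev d2 c.2 d.2 p.2).hasFDerivAt.comp p hasFDerivAt_snd
      have e2 : HasFDerivAt (fun q : ℝ × E => dd a q c d)
          (fderiv ℝ (fun q : ℝ × E => dd a q c d) p) p := (diff_ev d3 c d p).hasFDerivAt
      have e3 : HasFDerivAt (fun q : ℝ × E => Θ q.2 c.2 d.2 + dd a q c d)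
          ((fderiv ℝ (fun y => Θ y c.2 d.2) p.2).comp (ContinuousLinearMap.snd ℝ ℝ E) +
            fderiv ℝ (fun q : ℝ × E => dd a q c d) p) p := e1.add e2
      have e5 : (fun q : ℝ × E => Ω q c d) = fun q => Θ q.2 c.2 d.2 + dd a q c d := by
        funext q
        rw [hΩ]
        rfl
      rw [e5, e3.fderiv]
      rfl
    rw [h1, h1, h1]
    have h2 := hcl p.2 u.2 v.2 w.2
    have h3 := dd_closed has p u v w
    linarith
  -- the restriction to `E`
  obtain ⟨A, hA⟩ : ∃ A : ℝ × E → E →L[ℝ] E →L[ℝ] ℝ,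
      A = fun p => res (ContinuousLinearMap.inr ℝ ℝ E) (Ω p) := ⟨_, rfl⟩
  have hAe : ∀ p u v, A p u v = Ω p (0, u) (0, v) := by
    intro p u v
    rw [hA]
    rfl
  have hAs : ContDiff ℝ ∞ A := by
    rw [hA]
    exact clm_smooth (ℝ × E →L[ℝ] ℝ × E →L[ℝ] ℝ) (E →L[ℝ] E →L[ℝ] ℝ)
      (res (ContinuousLinearMap.inr ℝ ℝ E)) hΩs
  have hA' : ∀ (t : ℝ) (x u v : E), A (t, x) u v =
      Θ x u v + dd (γ (Real.smoothTransition t)) x u v := by
    intro t x u v
    have h1 : ∀ b, fderiv ℝ (γ (Real.smoothTransition t)) x b = fderiv ℝ g (t, x) (0, b) := by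
      intro b
      have e1 : HasFDerivAt (fun y : E => g (t, y))
          ((fderiv ℝ g (t, x)).comp (ContinuousLinearMap.inr ℝ ℝ E)) x :=
        (hgd (t, x)).hasFDerivAt.comp x (hasFDerivAt_prodMk_right t x)
      have e2 : (fun y : E => g (t, y)) = γ (Real.smoothTransition t) := by
        rw [hg]
      rw [e2] at e1
      rw [e1.fderiv]
      rfl
    rw [hAe, hΩe, dd_apply, h1, h1]
  have hAn : ∀ p u, (∀ v, A p u v = 0) → u = 0 := by
    rintro ⟨t, x⟩ u hu
    refine hnd (Real.smoothTransition t)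
      ⟨Real.smoothTransition.nonneg t, Real.smoothTransition.le_one t⟩ x u fun v => ?_
    rw [← hA']
    exact hu v
  obtain ⟨hinvs, hinv⟩ := inverse_smooth A hAs hAn
  obtain ⟨b, hb⟩ : ∃ b : ℝ × E → E →L[ℝ] ℝ,
      b = fun p => (Ω p (1, 0)).comp (ContinuousLinearMap.inr ℝ ℝ E) := ⟨_, rfl⟩
  have hbe : ∀ p v, b p v = Ω p (1, 0) (0, v) := by
    intro p v
    rw [hb]
    rfl
  have hbs : ContDiff ℝ ∞ b := by
    rw [hb]
    exact (hΩs.clm_apply contDiff_const).clm_comp contDiff_const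
  have hb' : ∀ p v, b p v = fderiv ℝ g p (1, 0) v := by
    intro p v
    rw [hbe, hΩe]
    simp
  obtain ⟨X, hX⟩ : ∃ X : ℝ × E → E, X = fun p => -(A p).inverse (b p) := ⟨_, rfl⟩
  have hXs : ContDiff ℝ ∞ X := by
    rw [hX]
    exact (hinvs.clm_apply hbs).neg
  have hAX : ∀ p v, A p (X p) v = -b p v := by
    intro p v
    rw [hX]
    change A p (-(A p).inverse (b p)) v = _
    rw [map_neg, hinv]
    rfl
  obtain ⟨Y, hY⟩ : ∃ Y : ℝ × E → ℝ × E, Y = fun p => ((1 : ℝ), X p) := ⟨_, rfl⟩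
  have hYs : ContDiff ℝ ∞ Y := by
    rw [hY]
    exact contDiff_const.prodMk hXs
  have hanti : ∀ p u v, Ω p u v = -Ω p v u := by
    intro p u v
    have h1 := hΩalt p (u + v)
    have h2 := hΩalt p u
    have h3 := hΩalt p v
    simp only [map_add, add_apply] at h1
    linarith
  have hker : ∀ p v, Ω p (Y p) v = 0 := by
    intro p v
    have e1 : Y p = ((1 : ℝ), (0 : E)) + (0, X p) := by
      rw [hY]; simp
    have e2 : v = v.1 • ((1 : ℝ), (0 : E)) + (0, v.2) := by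
      ext <;> simp
    have e3 : Ω p ((1 : ℝ), (0 : E)) (1, 0) = 0 := hΩalt p _
    have e4 : Ω p (0, X p) ((1 : ℝ), (0 : E)) = 0 := by
      rw [hanti, ← hbe]
      have h1 := hAX p (X p)
      have h2 : A p (X p) (X p) = 0 := by rw [hAe]; exact hΩalt p _
      linarith
    have e5 : Ω p ((1 : ℝ), (0 : E)) (0, v.2) + Ω p (0, X p) (0, v.2) = 0 := by
      rw [← hbe, ← hAe, hAX]
      ring
    rw [e1, e2]
    simp only [map_add, add_apply, map_smul, smul_eq_mul, e3, e4, mul_zero, zero_add]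
    exact e5
  -- `b` vanishes off `[-1, 1] × K`
  have hb0 : ∀ (t : ℝ) (x : E), (fun s : ℝ => g (s, x)) =ᶠ[𝓝 t] (fun _ => g (t, x)) →
      X (t, x) = 0 := by
    intro t x h
    have h1 : HasDerivAt (fun s : ℝ => g (s, x)) (fderiv ℝ g (t, x) (1, 0)) t :=
      (hgd (t, x)).hasFDerivAt.comp_hasDerivAt t ((hasDerivAt_id t).prodMk (hasDerivAt_const t x))
    have h2 : HasDerivAt (fun s : ℝ => g (s, x)) 0 t :=
      (hasDerivAt_const t (g (t, x))).congr_of_eventuallyEq h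
    have h3 := h1.unique h2
    have h4 : b (t, x) = 0 := by
      refine ContinuousLinearMap.ext fun v => ?_
      rw [hb', h3]
    rw [hX]
    change -(A (t, x)).inverse (b (t, x)) = 0
    rw [h4, map_zero, neg_zero]
  have hXK : ∀ (t : ℝ) (x : E), x ∉ K → X (t, x) = 0 := by
    intro t x hx
    refine hb0 t x (Eventually.of_forall fun s => ?_)
    have h1 : ∀ r : ℝ, g (r, x) = γ 0 x := by
      intro r
      rw [hg]
      exact hγK _ ⟨Real.smoothTransition.nonneg r, Real.smoothTransition.le_one r⟩ x hx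
    change g (s, x) = g (t, x)
    rw [h1, h1]
  have hXt : ∀ (t : ℝ) (x : E), 1 < |t| → X (t, x) = 0 := by
    intro t x ht
    refine hb0 t x ?_
    rcases lt_abs.mp ht with h | h
    · filter_upwards [(isOpen_lt continuous_const continuous_id).mem_nhds h] with s hs
      rw [hg]
      change γ (Real.smoothTransition s) x = γ (Real.smoothTransition t) x
      have hs' : 1 < s := hs
      rw [Real.smoothTransition.one_of_one_le hs'.le,
        Real.smoothTransition.one_of_one_le h.le]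
    · have h' : t < 0 := by linarith
      filter_upwards [(isOpen_lt continuous_id continuous_const).mem_nhds h'] with s hs
      rw [hg]
      change γ (Real.smoothTransition s) x = γ (Real.smoothTransition t) x
      have hs' : s < 0 := hs
      rw [Real.smoothTransition.zero_of_nonpos hs'.le,
        Real.smoothTransition.zero_of_nonpos h'.le]
  obtain ⟨r, hr⟩ := hK.isBounded.exists_norm_le
  have hYR : ∀ p : ℝ × E, max 2 (r + 1) ≤ ‖p‖ → Y p = ((1 : ℝ), (0 : E)) := by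
    rintro ⟨t, x⟩ hp
    have h1 : X (t, x) = 0 := by
      rw [Prod.norm_mk] at hp
      rcases le_total ‖x‖ ‖t‖ with h | h
      · rw [max_eq_left h] at hp
        refine hXt t x ?_
        have := (le_max_left (2 : ℝ) (r + 1)).trans hp
        rw [Real.norm_eq_abs] at this
        linarith
      · rw [max_eq_right h] at hp
        refine hXK t x fun hx => ?_
        have h2 := (le_max_right (2 : ℝ) (r + 1)).trans hp
        have h3 := hr x hx
        linarith
    rw [hY]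
    change ((1 : ℝ), X (t, x)) = _
    rw [h1]
  -- the flow
  obtain ⟨Φ, hΦ0, hΦd⟩ := hGE (ℝ × E) Y _ _ hYs hYR
  have hflow : Flow Y Φ := hSM (ℝ × E) Y _ _ Φ hYs hYR hΦ0 hΦd
  have hpull := kernel_flow Ω Y Φ hΩs hΩalt hΩcl hYs hker hflow 1
  have hfst : ∀ (s : ℝ) (p : ℝ × E), (Φ s p).1 = p.1 + s := by
    intro s p
    have h1 : ∀ r : ℝ, HasDerivAt (fun r => (Φ r p).1 - r) 0 r := by
      intro r
      have e1 : HasDerivAt (fun r => (Φ r p).1) (Y (Φ r p)).1 r := by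
        have e0 : HasFDerivAt (fun q : ℝ × E => q.1) (ContinuousLinearMap.fst ℝ ℝ E) (Φ r p) :=
          hasFDerivAt_fst
        exact e0.comp_hasDerivAt r (hΦd r p)
      have e2 : (Y (Φ r p)).1 = 1 := by rw [hY]
      rw [e2] at e1
      have e3 : HasDerivAt (fun r => (Φ r p).1 - r) (1 - 1) r := e1.sub (hasDerivAt_id r)
      rwa [sub_self] at e3
    have h2 := is_const_of_deriv_eq_zero (fun r => (h1 r).differentiableAt)
      (fun r => (h1 r).deriv) s 0
    simp only [hΦ0] at h2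
    linarith
  have hΦ1s : ContDiff ℝ ∞ (Φ 1) := hflow.smooth.comp (contDiff_const.prodMk contDiff_id)
  obtain ⟨F, hF⟩ : ∃ F : E → E, F = fun x => (Φ 1 (0, x)).2 := ⟨_, rfl⟩
  have hFs : ContDiff ℝ ∞ F := by
    rw [hF]
    exact contDiff_snd.comp (hΦ1s.comp (contDiff_const.prodMk contDiff_id))
  have hΦF : ∀ x, Φ 1 (0, x) = ((1 : ℝ), F x) := by
    intro x
    refine Prod.ext ?_ ?_
    · rw [hfst]; simp
    · rw [hF]
  have hDF : ∀ x u, fderiv ℝ (Φ 1) (0, x) (0, u) = ((0 : ℝ), fderiv ℝ F x u) := by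
    intro x u
    have e1 : HasFDerivAt (fun y : E => Φ 1 (0, y))
        ((fderiv ℝ (Φ 1) (0, x)).comp (ContinuousLinearMap.inr ℝ ℝ E)) x :=
      (hΦ1s.differentiable (by simp) (0, x)).hasFDerivAt.comp x (hasFDerivAt_prodMk_right 0 x)
    have e2 : HasFDerivAt (fun y : E => Φ 1 (0, y))
        ((0 : E →L[ℝ] ℝ).prod (fderiv ℝ F x)) x := by
      have e3 : (fun y : E => Φ 1 (0, y)) = fun y => ((1 : ℝ), F y) := funext hΦF
      rw [e3]
      exact (hasFDerivAt_const (1 : ℝ) x).prodMk (hFs.differentiable (by simp) x).hasFDerivAt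
    have e4 := congrArg (fun L : E →L[ℝ] ℝ × E => L u) (e1.unique e2)
    exact e4
  have hAF : ∀ x u v, A (1, F x) (fderiv ℝ F x u) (fderiv ℝ F x v) = A (0, x) u v := by
    intro x u v
    have h1 := hpull (0, x) (0, u) (0, v)
    rw [hΦF, hDF, hDF] at h1
    rw [hAe, hAe]
    exact h1
  have hfix : ∀ x, x ∉ K → F x = x := by
    intro x hx
    obtain ⟨L, hL⟩ := lip_of_const' hYs hYR
    have h1 := ODE_solution_unique_univ (v := fun _ => Y) (s := fun _ => univ) (K := L)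
      (f := fun s => Φ s (0, x)) (g := fun s : ℝ => (s, x)) (t₀ := 0)
      (fun _ => hL.lipschitzOnWith) (fun s => ⟨hΦd s (0, x), mem_univ _⟩)
      (fun s => ⟨by
        have e1 : Y (s, x) = ((1 : ℝ), (0 : E)) := by
          rw [hY]
          change ((1 : ℝ), X (s, x)) = _
          rw [hXK s x hx]
        rw [e1]
        exact (hasDerivAt_id s).prodMk (hasDerivAt_const s x), mem_univ _⟩) (hΦ0 _)
    have h2 := congrFun h1 1
    rw [hF]
    change (Φ 1 (0, x)).2 = x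
    have h3 : Φ 1 (0, x) = ((1 : ℝ), x) := h2
    rw [h3]
  have hinj : ∀ x, Function.Injective (fderiv ℝ F x) := by
    intro x
    rw [injective_iff_map_eq_zero]
    intro u hu
    refine hAn (0, x) u fun v => ?_
    rw [← hAF, hu]
    simp
  have hbij : Function.Bijective F := by
    refine hGI E F (r + 1) hFs hinj fun x hx => hfix x fun hxK => ?_
    have := hr x hxK
    linarith
  obtain ⟨e, he, hSm⟩ := hIV E F hFs hinj hbij
  refine ⟨e, hSm, fun x hx => (he x).trans (hfix x hx), ?_⟩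
  have hfun : (fun x => e x) = F := funext he
  intro x u v
  rw [hfun]
  have h1 := hAF x u v
  rw [hA', hA', Real.smoothTransition.one_of_one_le le_rfl,
    Real.smoothTransition.zero_of_nonpos le_rfl] at h1
  exact h1

end Pool.Agent.Helper95.SZ
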